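import Mathlib

open Finset
open scoped Pointwise

namespace Pool.Agent.Bal48

/-- Every residue class met by `A` gives a new element of `A + N`. -/
lemma shift_gain (A : Finset ℤ) (N : ℤ) (hN : 0 < N) :
    (A.image (· % N)).card ≤ ((A.image (· + N)) \ A).card := by
  have hsub : A.image (· % N) ⊆ ((A.image (· + N)) \ A).image (· % N) := by
    intro r hr
    obtain ⟨a, ha, rfl⟩ := Finset.mem_image.mp hr
    have hne : (A.filter (fun x => x % N = a % N)).Nonempty :=
      ⟨a, Finset.mem_filter.mpr ⟨ha, rfl⟩⟩
    obtain ⟨m, hm, hmax⟩ := Finset.exists_max_image _ (fun x : ℤ => x) hne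
    rw [Finset.mem_filter] at hm
    refine Finset.mem_image.mpr ⟨m + N, ?_, ?_⟩
    · rw [Finset.mem_sdiff]
      refine ⟨Finset.mem_image.mpr ⟨m, hm.1, rfl⟩, fun hc => ?_⟩
      have := hmax (m + N) (Finset.mem_filter.mpr ⟨hc, by simpa using hm.2⟩)
      omega
    · simpa using hm.2
  exact (Finset.card_le_card hsub).trans Finset.card_image_le

/-- Three elements of `B` suffice in the integers. -/
theorem three_int (A B : Finset ℤ) (hB : B.Nonempty)
    (hAB : B.card ≤ A.card + 1) :
    ∃ B' ⊆ B, B'.card ≤ 3 ∧ A.card + B.card ≤ (A + B').card + 1 := by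
  classical
  set lo := B.min' hB with hlo
  set hi := B.max' hB with hhi
  have hlomem : lo ∈ B := B.min'_mem hB
  have hhimem : hi ∈ B := B.max'_mem hB
  by_cases h1 : lo = hi
  · refine ⟨{lo}, by simpa using hlomem, by simp, ?_⟩
    have hc : B.card ≤ 1 := by
      rw [Finset.card_le_one]
      intro a ha b hb
      have h2 := B.min'_le a ha
      have h3 := B.le_max' a ha
      have h4 := B.min'_le b hb
      have h5 := B.le_max' b hb
      omega
    have : (A + {lo}).card = A.card := by
      rw [Finset.add_singleton]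
      exact Finset.card_vadd_finset _ _ |>.trans rfl
    omega
  have hlt : lo < hi := lt_of_le_of_ne (B.min'_le hi hhimem) h1
  set N := hi - lo with hN
  have hNpos : 0 < N := by omega
  set R := A.image (· % N) with hR
  set D := B.erase hi with hD
  have hDcard : D.card + 1 = B.card := Finset.card_erase_add_one hhimem
  -- the elements of B other than the largest have different residues
  have hinj : ∀ a : ℤ, Set.InjOn (fun b => (a + b - lo) % N) (D : Set ℤ) := by
    intro a b hb b' hb' h
    have hb1 := Finset.mem_erase.mp hb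
    have hb1' := Finset.mem_erase.mp hb'
    have h2 := B.min'_le b hb1.2
    have h3 := B.le_max' b hb1.2
    have h4 := B.min'_le b' hb1'.2
    have h5 := B.le_max' b' hb1'.2
    have h6 : N ∣ (a + b - lo) - (a + b' - lo) := Int.ModEq.dvd (Int.ModEq.symm h)
    have h7 : (a + b - lo) - (a + b' - lo) = b - b' := by ring
    rw [h7] at h6
    have h8 : b ≠ hi := hb1.1
    have h9 : b' ≠ hi := hb1'.1
    have h10 : b - b' = 0 := by
      apply Int.eq_zero_of_abs_lt_dvd h6
      rw [abs_lt]
      constructor <;> omega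
    omega
  -- choose the third element
  obtain ⟨b, hbD, hb⟩ : ∃ b ∈ B, D.card - R.card ≤
      (A.filter (fun a => (a + b - lo) % N ∉ R)).card := by
    by_cases hDR : D.card ≤ R.card
    · exact ⟨lo, hlomem, by omega⟩
    push Not at hDR
    by_contra hcon
    push Not at hcon
    have hsum : ∑ b ∈ D, (A.filter (fun a => (a + b - lo) % N ∉ R)).card
        = ∑ a ∈ A, (D.filter (fun b => (a + b - lo) % N ∉ R)).card := by
      simp only [Finset.card_filter]
      exact Finset.sum_comm
    have hlow : A.card * (D.card - R.card)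
        ≤ ∑ a ∈ A, (D.filter (fun b => (a + b - lo) % N ∉ R)).card := by
      rw [← smul_eq_mul, ← Finset.sum_const]
      refine Finset.sum_le_sum fun a _ => ?_
      have h2 : (D.filter (fun b => (a + b - lo) % N ∈ R)).card ≤ R.card := by
        refine Finset.card_le_card_of_injOn (fun b => (a + b - lo) % N) ?_ ?_
        · intro b hb
          exact (Finset.mem_filter.mp hb).2
        · exact (hinj a).mono (fun x hx => (Finset.mem_filter.mp hx).1)
      have h3 := Finset.card_filter_add_card_filter_not (s := D)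
        (fun b => (a + b - lo) % N ∈ R)
      omega
    have hup : ∑ b ∈ D, (A.filter (fun a => (a + b - lo) % N ∉ R)).card
        ≤ D.card * (D.card - R.card - 1) := by
      rw [← smul_eq_mul, ← Finset.sum_const]
      refine Finset.sum_le_sum fun b hb => ?_
      have := hcon b (Finset.mem_of_mem_erase hb)
      omega
    have hAD : D.card ≤ A.card := by omega
    have hfin : A.card * (D.card - R.card) ≤ D.card * (D.card - R.card - 1) := by
      rw [← hsum] at hlow
      exact hlow.trans hup
    have hpos : 0 < D.card - R.card := by omega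
    have hDpos : 0 < D.card := by omega
    have h4 : D.card * (D.card - R.card - 1) < D.card * (D.card - R.card) :=
      Nat.mul_lt_mul_of_pos_left (by omega) hDpos
    have h5 : D.card * (D.card - R.card) ≤ A.card * (D.card - R.card) :=
      Nat.mul_le_mul_right _ hAD
    omega
  refine ⟨{lo, hi, b}, ?_, Finset.card_le_three, ?_⟩
  · intro x hx
    simp only [Finset.mem_insert, Finset.mem_singleton] at hx
    rcases hx with rfl | rfl | rfl
    · exact hlomem
    · exact hhimem
    · exact hbD
  -- three disjoint parts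
  set P1 := A.image (· + lo) with hP1
  set P2 := ((A.image (· + N)) \ A).image (· + lo) with hP2
  set P3 := (A.filter (fun a => (a + b - lo) % N ∉ R)).image (· + b) with hP3
  have c1 : P1.card = A.card := Finset.card_image_of_injective _ (add_left_injective lo)
  have c2 : R.card ≤ P2.card := by
    rw [hP2, Finset.card_image_of_injective _ (add_left_injective lo)]
    exact shift_gain A N hNpos
  have c3 : P3.card = (A.filter (fun a => (a + b - lo) % N ∉ R)).card :=
    Finset.card_image_of_injective _ (add_left_injective b)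
  have d12 : Disjoint P1 P2 := by
    rw [Finset.disjoint_left]
    intro x hx hx2
    obtain ⟨a, ha, rfl⟩ := Finset.mem_image.mp hx
    obtain ⟨y, hy, hyx⟩ := Finset.mem_image.mp hx2
    have : y = a := by simpa using hyx
    subst this
    exact (Finset.mem_sdiff.mp hy).2 ha
  have d3 : Disjoint (P1 ∪ P2) P3 := by
    rw [Finset.disjoint_left]
    intro x hx hx3
    obtain ⟨a, ha, rfl⟩ := Finset.mem_image.mp hx3
    have hnot := (Finset.mem_filter.mp ha).2
    apply hnot
    rcases Finset.mem_union.mp hx with hx | hx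
    · obtain ⟨a', ha', h⟩ := Finset.mem_image.mp hx
      have h' : a + b - lo = a' := by
        have : a' + lo = a + b := h
        omega
      rw [h']
      exact Finset.mem_image_of_mem _ ha'
    · obtain ⟨y, hy, h⟩ := Finset.mem_image.mp hx
      obtain ⟨a', ha', h2⟩ := Finset.mem_image.mp (Finset.mem_sdiff.mp hy).1
      have h' : a + b - lo = a' + N := by
        have h3 : y + lo = a + b := h
        have h4 : a' + N = y := h2
        omega
      rw [h']
      refine Finset.mem_image.mpr ⟨a', ha', ?_⟩
      simp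
  have hsub : (P1 ∪ P2) ∪ P3 ⊆ A + {lo, hi, b} := by
    intro x hx
    rcases Finset.mem_union.mp hx with hx | hx
    · rcases Finset.mem_union.mp hx with hx | hx
      · obtain ⟨a, ha, rfl⟩ := Finset.mem_image.mp hx
        exact Finset.add_mem_add ha (by simp)
      · obtain ⟨y, hy, rfl⟩ := Finset.mem_image.mp hx
        obtain ⟨a', ha', h2⟩ := Finset.mem_image.mp (Finset.mem_sdiff.mp hy).1
        have h3 : y + lo = a' + hi := by
          have h4 : a' + N = y := h2
          omega
        show y + lo ∈ _
        rw [h3]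
        exact Finset.add_mem_add ha' (by simp)
    · obtain ⟨a, ha, rfl⟩ := Finset.mem_image.mp hx
      exact Finset.add_mem_add (Finset.mem_filter.mp ha).1 (by simp)
  have hcard := Finset.card_le_card hsub
  rw [Finset.card_union_of_disjoint d3, Finset.card_union_of_disjoint d12] at hcard
  omega

/-- Rectification: for `p > 4 ^ |X \\ {0}|` a dilation brings all elements of `X` close to `0`. -/
lemma rectify (p : ℕ) [Fact p.Prime] (X : Finset (ZMod p)) (hp : 4 ^ (X.erase 0).card < p) :
    ∃ (t : ZMod p) (f : ZMod p → ℤ), t ≠ 0 ∧ ∀ x ∈ X, ((f x : ℤ) : ZMod p) = t * x ∧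
      4 * |f x| < p := by
  classical
  have hp0 : 0 < p := (Fact.out : p.Prime).pos
  let F : ZMod p → (X.erase 0 → Fin 4) := fun l x =>
    ⟨(l * x.1).val * 4 / p, by
      rw [Nat.div_lt_iff_lt_mul hp0]
      have := ZMod.val_lt (l * x.1)
      omega⟩
  have hcard : Fintype.card (X.erase 0 → Fin 4) < Fintype.card (ZMod p) := by
    rw [Fintype.card_fun, Fintype.card_fin, ZMod.card, Fintype.card_coe]
    exact hp
  obtain ⟨l, l', hne, hF⟩ := Fintype.exists_ne_map_eq_of_card_lt F hcard
  refine ⟨l - l', fun x => ((l * x).val : ℤ) - ((l' * x).val : ℤ), sub_ne_zero.mpr hne, ?_⟩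
  intro x hx
  constructor
  · push_cast
    rw [ZMod.natCast_zmod_val, ZMod.natCast_zmod_val]
    ring
  · by_cases hx0 : x = 0
    · subst hx0
      simpa using hp0
    have h1 : (l * x).val * 4 / p = (l' * x).val * 4 / p := by
      have := congrFun hF ⟨x, Finset.mem_erase.mpr ⟨hx0, hx⟩⟩
      exact congrArg Fin.val this
    have a1 := Nat.div_add_mod ((l * x).val * 4) p
    have a2 := Nat.div_add_mod ((l' * x).val * 4) p
    have a3 := Nat.mod_lt ((l * x).val * 4) hp0
    have a4 := Nat.mod_lt ((l' * x).val * 4) hp0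
    rw [h1] at a1
    have h2 : |4 * (((l * x).val : ℤ) - ((l' * x).val : ℤ))| < p := by
      rw [abs_lt]
      set q := p * ((l' * x).val * 4 / p) with hq
      constructor <;> omega
    rw [abs_mul] at h2
    simpa using h2

/-- Three elements of `B` suffice in `ZMod p` if `p > 16 ^ (n - 1)`, for sets containing `0`. -/
theorem three_zmod_zero (n p : ℕ) [Fact p.Prime] (hn : 1 ≤ n) (hp : 16 ^ (n - 1) < p)
    (A B : Finset (ZMod p)) (hA : A.card = n) (hB : B.card = n) (hA0 : 0 ∈ A) (hB0 : 0 ∈ B) :
    ∃ B' ⊆ B, B'.card ≤ 3 ∧ 2 * n - 1 ≤ (A + B').card := by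
  classical
  have hX : 4 ^ ((A ∪ B).erase 0).card < p := by
    refine lt_of_le_of_lt ?_ hp
    have : ((A ∪ B).erase 0).card ≤ 2 * (n - 1) := by
      have h1 : (A ∪ B).erase 0 = A.erase 0 ∪ B.erase 0 := by
        ext x
        simp only [Finset.mem_erase, Finset.mem_union]
        tauto
      have h2 := Finset.card_union_le (A.erase 0) (B.erase 0)
      have h3 := Finset.card_erase_add_one hA0
      have h4 := Finset.card_erase_add_one hB0
      rw [h1]
      omega
    calc 4 ^ ((A ∪ B).erase 0).card ≤ 4 ^ (2 * (n - 1)) := Nat.pow_le_pow_right (by norm_num) this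
      _ = 16 ^ (n - 1) := by rw [pow_mul]; norm_num
  obtain ⟨t, f, ht, hf⟩ := rectify p (A ∪ B) hX
  have hfA : ∀ x ∈ A, ((f x : ℤ) : ZMod p) = t * x ∧ 4 * |f x| < p :=
    fun x hx => hf x (Finset.mem_union_left _ hx)
  have hfB : ∀ x ∈ B, ((f x : ℤ) : ZMod p) = t * x ∧ 4 * |f x| < p :=
    fun x hx => hf x (Finset.mem_union_right _ hx)
  have injA : Set.InjOn f (A : Set (ZMod p)) := by
    intro x hx y hy h
    have h1 := (hfA x hx).1
    rw [h, (hfA y hy).1] at h1
    exact (mul_left_cancel₀ ht h1).symm
  have injB : Set.InjOn f (B : Set (ZMod p)) := by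
    intro x hx y hy h
    have h1 := (hfB x hx).1
    rw [h, (hfB y hy).1] at h1
    exact (mul_left_cancel₀ ht h1).symm
  have cA : (A.image f).card = n := by rw [Finset.card_image_of_injOn injA, hA]
  have cB : (B.image f).card = n := by rw [Finset.card_image_of_injOn injB, hB]
  have hBne : (B.image f).Nonempty := by
    rw [← Finset.card_pos]; omega
  obtain ⟨T, hTB, hT3, hTcard⟩ := three_int (A.image f) (B.image f) hBne (by omega)
  refine ⟨B.filter (fun x => f x ∈ T), Finset.filter_subset _ _, ?_, ?_⟩
  · refine le_trans ?_ hT3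
    refine Finset.card_le_card_of_injOn f ?_ ?_
    · intro x hx
      exact (Finset.mem_filter.mp hx).2
    · exact injB.mono (fun x hx => (Finset.mem_filter.mp hx).1)
  · -- the sums, in the integers and modulo `p`
    have hle : (A.image f + T).card ≤ ((A + B.filter (fun x => f x ∈ T)).image (t * ·)).card := by
      refine Finset.card_le_card_of_injOn (fun z : ℤ => (z : ZMod p)) ?_ ?_
      · intro z hz
        obtain ⟨u, hu, v, hv, rfl⟩ := Finset.mem_add.mp hz
        obtain ⟨a, ha, rfl⟩ := Finset.mem_image.mp hu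
        obtain ⟨b, hb, rfl⟩ := Finset.mem_image.mp (hTB hv)
        refine Finset.mem_coe.mpr (Finset.mem_image.mpr ⟨a + b, ?_, ?_⟩)
        · exact Finset.add_mem_add ha (Finset.mem_filter.mpr ⟨hb, hv⟩)
        · push_cast
          rw [(hfA a ha).1, (hfB b hb).1]
          ring
      · intro z hz w hw h
        obtain ⟨u, hu, v, hv, rfl⟩ := Finset.mem_add.mp hz
        obtain ⟨a, ha, rfl⟩ := Finset.mem_image.mp hu
        obtain ⟨b, hb, rfl⟩ := Finset.mem_image.mp (hTB hv)
        obtain ⟨u', hu', v', hv', rfl⟩ := Finset.mem_add.mp hw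
        obtain ⟨a', ha', rfl⟩ := Finset.mem_image.mp hu'
        obtain ⟨b', hb', rfl⟩ := Finset.mem_image.mp (hTB hv')
        have e1 := abs_lt.mp (lt_of_eq_of_lt (by rw [abs_mul]; rfl : |4 * f a| = 4 * |f a|) (hfA a ha).2)
        have e2 := abs_lt.mp (lt_of_eq_of_lt (by rw [abs_mul]; rfl : |4 * f b| = 4 * |f b|) (hfB b hb).2)
        have e3 := abs_lt.mp (lt_of_eq_of_lt (by rw [abs_mul]; rfl : |4 * f a'| = 4 * |f a'|) (hfA a' ha').2)
        have e4 := abs_lt.mp (lt_of_eq_of_lt (by rw [abs_mul]; rfl : |4 * f b'| = 4 * |f b'|) (hfB b' hb').2)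
        have h5 : (p : ℤ) ∣ (f a + f b) - (f a' + f b') := by
          have h6 : ((f a + f b : ℤ) : ZMod p) = ((f a' + f b' : ℤ) : ZMod p) := h
          exact (ZMod.intCast_eq_intCast_iff_dvd_sub _ _ _).mp h6.symm
        have h7 : (f a + f b) - (f a' + f b') = 0 := by
          apply Int.eq_zero_of_abs_lt_dvd h5
          rw [abs_lt]
          constructor <;> omega
        show f a + f b = f a' + f b'
        omega
    have hle2 : ((A + B.filter (fun x => f x ∈ T)).image (t * ·)).card
        ≤ (A + B.filter (fun x => f x ∈ T)).card := Finset.card_image_le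
    omega

/-- Three elements of `B` suffice in `ZMod p` if `p > 16 ^ (n - 1)`. -/
theorem three_zmod (n p : ℕ) [Fact p.Prime] (hn : 1 ≤ n) (hp : 16 ^ (n - 1) < p)
    (A B : Finset (ZMod p)) (hA : A.card = n) (hB : B.card = n) :
    ∃ B' ⊆ B, B'.card ≤ 3 ∧ 2 * n - 1 ≤ (A + B').card := by
  classical
  obtain ⟨a, ha⟩ : A.Nonempty := by rw [← Finset.card_pos]; omega
  obtain ⟨b, hb⟩ : B.Nonempty := by rw [← Finset.card_pos]; omega
  obtain ⟨T, hT, hT3, hTc⟩ := three_zmod_zero n p hn hp (A.image (· - a)) (B.image (· - b))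
    (by rw [Finset.card_image_of_injective _ (sub_left_injective), hA])
    (by rw [Finset.card_image_of_injective _ (sub_left_injective), hB])
    (Finset.mem_image.mpr ⟨a, ha, sub_self a⟩) (Finset.mem_image.mpr ⟨b, hb, sub_self b⟩)
  refine ⟨T.image (· + b), ?_, Finset.card_image_le.trans hT3, hTc.trans ?_⟩
  · intro x hx
    obtain ⟨y, hy, rfl⟩ := Finset.mem_image.mp hx
    obtain ⟨z, hz, h⟩ := Finset.mem_image.mp (hT hy)
    have : y + b = z := by rw [← h]; ring
    show y + b ∈ B
    rw [this]
    exact hz
  · refine Finset.card_le_card_of_injOn (fun x => x + a + b) ?_ ?_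
    · intro x hx
      obtain ⟨u, hu, v, hv, rfl⟩ := Finset.mem_add.mp hx
      obtain ⟨y, hy, rfl⟩ := Finset.mem_image.mp hu
      have h2 : (y - a + v + a + b) = y + (v + b) := by ring
      show y - a + v + a + b ∈ _
      rw [h2]
      exact Finset.add_mem_add hy (Finset.mem_image_of_mem _ hv)
    · intro x _ y _ h
      have : x + a + b = y + a + b := h
      exact add_right_cancel (add_right_cancel this)

end Pool.Agent.Bal48
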